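import Pool.Agent.J4H25.PG.Main

/-!
# Almost all groups of `p`-class two are identified by the 32-dimensional Weisfeiler-Leman method

Isomorphism of groups given by their multiplication tables is the special case of graph isomorphism
(for Latin square graphs) that is decided in time `n ^ O(log n)` and is a barrier to placing graph
isomorphism in P. Its hard case are the `p`-groups of class two, above all the groups whose
Frattini quotient and Frattini subgroup are elementary abelian with the Frattini subgroup in the
centre (`p`-class two). By Higman and Sims they are `p ^ (2 r ^ 3 / 27 - O(r ^ 2))` of the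
`p ^ (2 r ^ 3 / 27 + O(r ^ (5 / 2)))` groups of order `p ^ r`, and they are conjectured to be almost
all finite groups. The Weisfeiler-Leman dimension of some of them is of order `log n` (starting
results `GroupWLDimension`, `TwoGroups`), so no bounded dimension identifies all of them.

Here: for all primes `p` and all `r ≥ 6000`, all but a fraction of `p ^ (- r / 20)` of the isomorphism
types of groups of order `p ^ r` and `p`-class at most two are identified, among all finite graphs,
by the `k`-dimensional Weisfeiler-Leman method, for every fixed `k ≥ 32` (so isomorphism to them is
decided in polynomial time by one combinatorial algorithm).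

Proof. Such a group is given by `V = F_p ^ d`, `W = F_p ^ m`, `d + m = r`, an alternating map
`κ : V × V → W` (commutators) and a map `π : V → W` (`p`-th powers), and isomorphism types are orbits
of `GL(V) × GL(W)`.
* (`WLPart`) If seventeen vectors `a_0, ..., a_16` of `V` are such that `V` is the only subspace that
  contains them and is closed under the solutions `w` of `κ a_2 w = κ a_0 z, κ a_3 w = κ a_1 z` and
  of `κ a_4 w = κ a_0 z, κ a_5 w = κ a_1 z` for `z` in the subspace, and `a_2, a_3` and `a_4, a_5`
  have no common kernel vector, then pebbles on lifts of the `a_i` determine all elements modulo the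
  centre and all commutators and `p`-th powers, and the group is identified.
* (`Prob1`-`Prob4`, `GoodCount`) For `2 m - 4 ≤ d ≤ 2 m - 1` all but a fraction `p ^ (- m / 4)` of the
  maps `κ` have such vectors: first moment over the closed subspaces.
* (`Fix`, `Few`, `Orbit`) Burnside's lemma: almost all parameters have a stabilizer of scalars only,
  for `3 / 2 ≤ d / m ≤ 5 / 2`.
* (`Num`) The other dimensions contribute a fraction `p ^ (- r / 3 + O(1))` of the types.
-/

set_option autoImplicit false

namespace Pool.Agent.Results.MP_f1a348_lc.AlmostAllPGroups

open Pool.Agent.J4H25.PG

theorem result (p : ℕ) (hp : p.Prime) (r : ℕ) (hr : 6000 ≤ r) (k : ℕ) (hk : 32 ≤ k) :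
    0 < numTypes (p ^ r) (OfPClassTwo p) ∧
    numTypes (p ^ r) (fun g => OfPClassTwo p g ∧ ¬ GroupIdentified k g) * p ^ (r / 20) ≤
      numTypes (p ^ r) (OfPClassTwo p) :=
  main' p hp r hr k hk

end Pool.Agent.Results.MP_f1a348_lc.AlmostAllPGroups
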