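import Pool.Agent.J4H42.RE.Unl

/-!
# Almost all graphs with semiregular groups of automorphisms are identified

A group of permutations of `n` points is semiregular if no element but the identity has a fixed
point. We call a graph *good* if, after the individualization of some nine of its vertices, three
rounds of colour refinement give different colours to all vertices, and if the ten-dimensional
Weisfeiler-Leman method distinguishes it from all finite graphs which are not isomorphic to it.

For all large `n` and every set `P` of semiregular groups on `n` points, among the isomorphism
types of the graphs which are invariant under some group in `P`, at most a fraction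
`exp (- n ^ (1 / 12))` is not good.

If `P` is the set of all regular groups, these are all Cayley graphs on `n` vertices; if `P` is the
set of the regular groups which are isomorphic to a given group, these are the Cayley graphs of
this group. If `P` consists of the trivial group, these are all graphs; if `P` is the set of the
semiregular groups which are not trivial, these are the graphs for which some automorphism of prime
order has no fixed vertex.

Outline. First consider the labelled graphs which are invariant under one semiregular group `H`.
The colour of a pair of points is its `H`-orbit. Two points `u ≠ w` are joined to at least a
quarter of the points by pairs of different colours. For `ℓ` pairs of points and a generic tuple of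
nine points, all of the random set of orbits except for its restriction to small subsets, which
are private for the pairs, is fixed; then the numbers of common neighbours which must agree are
sums of independent functions, and the probability that they agree for all the `ℓ` pairs is bounded
with characteristic functions. If many points are not separated from others, many such pairs exist.
So all but a fraction `exp (- n ^ (1 / 11))` of the invariant graphs are good.

The isomorphism types of the bad invariant graphs of `H` are at most the orbits of the centralizer
`C` of `H` on these graphs. An element of `C` which differs from all central elements of `H` fixes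
few invariant graphs, and the sum of these numbers is small; hence the bad orbits are few in
comparison with the number of the invariant graphs divided by `|C|`. Conversely a good graph has
at most `n ^ 9` automorphisms and `H` is generated by `1 + log n / log 2` elements, so that an
isomorphism type of a good graph comes from few pairs of a group in `P`, up to conjugacy, and an
orbit of its centralizer.
-/

set_option autoImplicit false

namespace Pool.Agent.Results.MP_f1a348_lc.AlmostAllSymmetricGraphs

open Pool.Agent.J4H42.RC Pool.Agent.J4H42.RE Pool.Agent.W185.SRG

/-- Three rounds of colour refinement are discrete after the individualization of some nine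
vertices, and the ten-dimensional Weisfeiler-Leman method identifies the graph. -/
def Good {V : Type} [Fintype V] (X : SimpleGraph V) : Prop :=
  (∃ b : Fin 9 → V, Function.Injective (refineG X b 3)) ∧
    ∀ (W : Type) [Fintype W] (Y : SimpleGraph W), WLEquivalent 10 X Y → Nonempty (X ≃g Y)

theorem good_iff {V : Type} [Fintype V] {X : SimpleGraph V} : Good X ↔ HasBase X :=
  ⟨fun h => h.1, fun ⟨b, h⟩ =>
    ⟨⟨b, h⟩, fun _ _ Y hY => iso_of_refineG (m := 8) X Y b 3 h hY⟩⟩

/-- **Almost all isomorphism types of graphs with semiregular groups of automorphisms are good.** -/
theorem result : ∃ n₀ : ℕ, ∀ n : ℕ, n₀ ≤ n →
    ∀ P : Set (Subgroup (Equiv.Perm (Fin n))), (∀ H ∈ P, Semireg H) →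
      (numTypes (Fin n) (fun X => (∃ H ∈ P, Inv H X) ∧ ¬ Good X) : ℝ) ≤
        Real.exp (-(n : ℝ) ^ (1 / 12 : ℝ)) *
          numTypes (Fin n) (fun X => ∃ H ∈ P, Inv H X) := by
  obtain ⟨n₀, h₀⟩ := unl
  refine ⟨n₀, fun n hn P hP => ?_⟩
  have h1 := h₀ (Fin n) (by rw [Fintype.card_fin]; exact hn) P hP
  rw [Fintype.card_fin] at h1
  have h2 : (fun X : SimpleGraph (Fin n) => (∃ H ∈ P, Inv H X) ∧ ¬ Good X) =
      fun X => (∃ H ∈ P, Inv H X) ∧ ¬ HasBase X := by
    funext X
    rw [good_iff]
  rw [h2]
  exact h1

end Pool.Agent.Results.MP_f1a348_lc.AlmostAllSymmetricGraphs
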