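import Pool.Agent.J4H25.DH.Final

/-!
# Graph isomorphism is polynomial on average in every dense hereditary class of graphs

A class of graphs is hereditary if it is closed under isomorphism and induced subgraphs, and dense
if it has at least `2 ^ (c n ^ 2)` labelled members on `n` vertices for some `c > 0` and infinitely
many `n`. Dense are, for example, the bipartite, split, chordal, comparability and perfect graphs
and, for every `H` which is not an induced subgraph of the path with four vertices, the graphs
without induced subgraph `H`. For these `H` (and for no others) the isomorphism problem for graphs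
without induced subgraph `H` is as hard as the graph isomorphism problem.

The `cost` of a graph is the least `k` such that the individualization of `k` suitable vertices
makes colour refinement separate all vertices, and the `(k + 1)`-dimensional Weisfeiler-Leman
method identifies the graph (and the same for all greater numbers). So the isomorphism of `G` to any
graph is decided, by one simple algorithm that is always correct, in time `n ^ (cost G + O(1))`.

Theorem. There is a number `n₀` such that for every dense hereditary class `P` there is a set `B` of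
numbers with `∑ 1 / n ≤ 59` (sum over `n` in `B`), such that for all `n ≥ n₀` outside of `B`

* the average of `n ^ cost G` over the members of `P` on `n` vertices is at most `n ^ 100 + 1`;
* for all `j ≥ 1` the members of cost more than `100 j` contribute at most `2 ^ (- n j / 51)` to this
  average, and they are at most `2 ^ (- n j / 51)` of the isomorphism types.

Proof.
* (`Growth`, `Growth2`) By Shearer's inequality `log |P n| / (n (n - 1))` is nonincreasing. Hence
  `|P n| ≥ exp (0.34 m n) |P (n - m)|` for all `m ≤ n / 100`, for all `n` outside of such a set `B`,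
  because the limit is at least `(log 2) / 4`:
* (`Shat`, `Types`) by the theorems of Sauer-Shelah, Kővári-Sós-Turán and Ramsey a dense class
  contains all graphs with a partition into two parts of fixed types (clique or independent set).
* (`CountE`) A graph with an equitable partition with `m` nontrivial classes is determined by the
  partition, by the graph without one vertex of each of these classes, and by `2 m ^ 2` bits. So
  members with many nontrivial classes in an equitable partition are rare.
* (`CountTs`) Members with `j` disjoint pairs of vertices with few differences are rare.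
* (`Indiv2`) In the other graphs `100 j` suitable vertices make every equitable partition discrete.
* (`Avg`) A graph has at most `n ^ cost` automorphisms; this gives the statement on types.
-/

set_option autoImplicit false

namespace Pool.Agent.Results.MP_f1a348_lc.DenseHereditaryClasses

open Finset Pool.Agent.J4H42.RC Pool.Agent.W185.SRG

/-- The class `P` of graphs (`P n` is the set of its members with the vertices `0, ..., n - 1`) is
closed under isomorphism and induced subgraphs. -/
def Hereditary (P : (n : ℕ) → Set (SimpleGraph (Fin n))) : Prop :=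
  ∀ (m n : ℕ) (f : Fin m ↪ Fin n) (G : SimpleGraph (Fin n)), G ∈ P n → G.comap f ∈ P m

/-- The class has at least `2 ^ (c n ^ 2)` members on `n` vertices for some `c > 0` and infinitely
many `n`. -/
def Dense (P : (n : ℕ) → Set (SimpleGraph (Fin n))) : Prop :=
  ∃ c : ℝ, 0 < c ∧ ∀ N : ℕ, ∃ n : ℕ, N ≤ n ∧ (2 : ℝ) ^ (c * (n : ℝ) ^ 2) ≤ ((P n).ncard : ℝ)

/-- Colour refinement after the individualization of `k` suitable vertices separates all vertices,
and the `(k + 1)`-dimensional Weisfeiler-Leman method identifies the graph. -/
def Solved (k : ℕ) {V : Type} [Fintype V] (G : SimpleGraph V) : Prop :=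
  (∃ (a : Fin k → V) (t : ℕ), Function.Injective (refineG G a t)) ∧
    ∀ (W : Type) [Fintype W] (Y : SimpleGraph W), WLEquivalent (k + 1) G Y → Nonempty (G ≃g Y)

/-- The least `k` such that `G` is solved with every number `k' ≥ k`. -/
noncomputable def cost {V : Type} [Fintype V] (G : SimpleGraph V) : ℕ :=
  sInf {k | ∀ k' : ℕ, k ≤ k' → Solved k' G}

/-- The isomorphism relation. -/
def isoSetoid (n : ℕ) : Setoid (SimpleGraph (Fin n)) where
  r G H := Nonempty (G ≃g H)
  iseqv := ⟨fun _ => ⟨SimpleGraph.Iso.refl⟩, fun ⟨φ⟩ => ⟨φ.symm⟩, fun ⟨φ⟩ ⟨ψ⟩ => ⟨φ.trans ψ⟩⟩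

/-- The number of isomorphism types of the graphs in `S`. -/
noncomputable def numTypes {n : ℕ} (S : Set (SimpleGraph (Fin n))) : ℕ :=
  (Quotient.mk (isoSetoid n) '' S).ncard

/-- The graphs without induced subgraph `H`. -/
def freeOf {h : ℕ} (H : SimpleGraph (Fin h)) (n : ℕ) : Set (SimpleGraph (Fin n)) :=
  {G | ¬ Nonempty (H ↪g G)}

open Classical in
theorem result :
    (∃ n₀ : ℕ, ∀ P : (n : ℕ) → Set (SimpleGraph (Fin n)), Hereditary P → Dense P →
      ∃ B : Set ℕ, (∀ F : Finset ℕ, (∀ j ∈ F, j ∈ B) → ∑ j ∈ F, (1 : ℝ) / j ≤ 59) ∧
        ∀ n : ℕ, n₀ ≤ n → n ∉ B →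
          (∀ j : ℕ, 1 ≤ j →
            ∑ G ∈ univ.filter (fun G : SimpleGraph (Fin n) => G ∈ P n ∧ 100 * j < cost G),
              (n : ℝ) ^ cost G ≤ (2 : ℝ) ^ (-((n : ℝ) * j / 51)) * ((P n).ncard : ℝ) ∧
            (numTypes {G | G ∈ P n ∧ 100 * j < cost G} : ℝ) ≤
              (2 : ℝ) ^ (-((n : ℝ) * j / 51)) * (numTypes (P n) : ℝ)) ∧
          ∑ G ∈ univ.filter (fun G : SimpleGraph (Fin n) => G ∈ P n), (n : ℝ) ^ cost G ≤
            ((n : ℝ) ^ 100 + 1) * ((P n).ncard : ℝ)) ∧
    ∀ (h : ℕ) (H : SimpleGraph (Fin h)), ¬ Nonempty (H ↪g SimpleGraph.pathGraph 4) →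
      Hereditary (freeOf H) ∧ Dense (freeOf H) := by
  refine ⟨?_, fun h H hH => ⟨J4H25.DH.freeOf_hered H, 1 / 4, by norm_num,
    J4H25.DH.freeOf_dense H hH⟩⟩
  obtain ⟨n₀, h⟩ := J4H25.DH.main4
  exact ⟨n₀, fun P hP ⟨c, hc, hd⟩ => h P hP c hc hd⟩

end Pool.Agent.Results.MP_f1a348_lc.DenseHereditaryClasses
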