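import Pool.Agent.J4H25.G3.MainG

/-!
# The threshold for the Weisfeiler-Leman method on groups of class two

Let `p` be an odd prime. Consider the finite groups `G` of exponent dividing `p` and nilpotency
class at most two whose commutator subgroup has order `p ^ d`.

If `d ≤ 2`, the `18`-dimensional Weisfeiler-Leman method identifies the graph of the
multiplication table of `G` (among all finite graphs). If `d ≥ 3`, there are pairs of such groups
of order `n = p ^ r` that are not isomorphic and are not distinguished in dimension `N ≥ c r`,
`c = 1 / (769 d)`; dimension `O(log n)` always suffices.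

For `d ≤ 2` the commutator map is a pair of alternating forms `A, B` on a vector space. The method
counts the chains `v 0, …, v n` with `A (v (i+1)) = B (v i)` and prescribed ends, since only two
vectors (the last one and a partial sum) have to be remembered; these numbers determine the pair
up to isometry: blocks are split off one at a time, singular blocks by minimality and duality,
blocks at infinity by maximality and duality, and finite blocks as hyperbolic planes over
`F_p[t] / (f ^ k)`.

For `d ≥ 3` the groups live on `A × B × F_p ^ d`, where `B` consists of the tuples `c` of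
functionals on `A` with `∑ q i (c i) = 0`, for three alternating maps `q i` from the dual of `A`
to `A`, one of them bijective, which together expand dimensions by a factor `3 / 2`.
-/

set_option autoImplicit false

namespace Pool.Agent.Results.MP_f1a348_lc.GenusThreshold

open Pool.Agent.W185.SRG Pool.Agent.W185.LSQ Pool.Agent.J4H25.PG Pool.Agent.J4H25.G3

theorem result (p : ℕ) (hp : p.Prime) (hp2 : p ≠ 2) (d : ℕ) :
    (d ≤ 2 → ∀ (G : Type) [Group G] [Fintype G], ExpTwo p (p ^ d) G → ∀ k, 18 ≤ k →
      Identified k (latinGraph fun a b : G => a * b)) ∧
    (3 ≤ d → ∀ N, 1 ≤ N →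
      ∃ (G H : Type) (_ : Group G) (_ : Group H) (_ : Fintype G) (_ : Fintype H) (r : ℕ),
        r ≤ 769 * d * N ∧ Fintype.card G = p ^ r ∧ Fintype.card H = p ^ r ∧
        ExpTwo p (p ^ d) G ∧ ExpTwo p (p ^ d) H ∧ IsEmpty (G ≃* H) ∧
        IsEmpty (latinGraph (fun a b : G => a * b) ≃g latinGraph (fun a b : H => a * b)) ∧
        ∀ k ≤ N, WLEquivalent k (latinGraph fun a b : G => a * b)
          (latinGraph fun a b : H => a * b)) :=
  threshold p hp hp2 d

end Pool.Agent.Results.MP_f1a348_lc.GenusThreshold
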